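import Mathlib

/-!
# Closed complexity along non-syndetic sets

For every set `S` of natural numbers that is not syndetic there is an aperiodic binary word `x`
with at most three closed factors of length `n` for every `n ∈ S`.  In particular the property
`limsup_{n ∈ S} cl_x(n) = ∞` fails for some aperiodic `x` and some piecewise syndetic `S`.

The word is `1 0^{b_0} 11 0^{b_1} 1 0^{b_2} 11 0^{b_3} 1 ...` with rapidly growing gaps.
-/

set_option autoImplicit false

open Filter

namespace Pool.Agent.Results.MP_304c86_co.NonSyndetic

section Definitions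

variable {A : Type*}

/-- The factor `x_i x_{i+1} ⋯ x_{i+n-1}` of the infinite word `x`. -/
def block (x : ℕ → A) (i n : ℕ) : List A := (List.range n).map fun j => x (i + j)

/-- The finite word `u` occurs in the finite word `w` at position `p`. -/
def OccursAt (u w : List A) (p : ℕ) : Prop := ∃ s t : List A, s.length = p ∧ w = s ++ u ++ t

/-- A finite word `w` is closed if `|w| ≤ 1` or if some border `u` of `w` (a prefix and suffix of
`w` different from `w`) occurs in `w` exactly twice. -/
def Closed (w : List A) : Prop :=
  w.length ≤ 1 ∨ ∃ u : List A, u ≠ w ∧ u <+: w ∧ u <:+ w ∧ {p | OccursAt u w p}.ncard = 2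

/-- The set of closed factors of `x` of length `n`. -/
def closedFactors (x : ℕ → A) (n : ℕ) : Set (List A) := {w | (∃ i, w = block x i n) ∧ Closed w}

/-- The closed complexity `cl_x(n)`: the number of closed factors of `x` of length `n`. -/
noncomputable def closedComplexity (x : ℕ → A) (n : ℕ) : ℕ∞ := (closedFactors x n).encard

/-- `x` is aperiodic: it is not ultimately periodic. -/
def Aperiodic (x : ℕ → A) : Prop := ¬ ∃ N p : ℕ, 0 < p ∧ ∀ n, N ≤ n → x (n + p) = x n

/-- `S` is syndetic: for some `g`, every interval of `g` consecutive integers meets `S`. -/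
def Syndetic (S : Set ℕ) : Prop := ∃ g : ℕ, ∀ a : ℕ, ∃ s ∈ S, a ≤ s ∧ s < a + g

/-- `T` is thick: it contains intervals of every finite length. -/
def Thick (T : Set ℕ) : Prop := ∀ L : ℕ, ∃ a : ℕ, ∀ j < L, a + j ∈ T

/-- `S` is piecewise syndetic: the intersection of a syndetic and a thick set. -/
def PiecewiseSyndetic (S : Set ℕ) : Prop := ∃ S₁ T : Set ℕ, Syndetic S₁ ∧ Thick T ∧ S = S₁ ∩ T

end Definitions

section General

variable {A : Type*}

lemma length_block (x : ℕ → A) (i n : ℕ) : (block x i n).length = n := by
  simp [block]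

lemma block_add (x : ℕ → A) (i a b : ℕ) : block x i (a + b) = block x i a ++ block x (i + a) b := by
  unfold block
  rw [List.range_add, List.map_append, List.map_map]
  congr 1
  apply List.map_congr_left
  intro j _
  simp [Function.comp, add_assoc]

lemma block_eq_iff (x y : ℕ → A) (i k n : ℕ) :
    block x i n = block y k n ↔ ∀ j < n, x (i + j) = y (k + j) := by
  unfold block
  rw [List.map_inj_left]
  simp

lemma block_eq_map_iff (x : ℕ → A) (f : ℕ → A) (i n : ℕ) :
    block x i n = (List.range n).map f ↔ ∀ j < n, x (i + j) = f j := by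
  unfold block
  rw [List.map_inj_left]
  simp

/-- A closed factor of length at least two yields a border length `m` such that the border has
no occurrence strictly between the first and the last one. -/
lemma exists_border {x : ℕ → A} {i n : ℕ} (hn : 2 ≤ n) (h : Closed (block x i n)) :
    ∃ m, m < n ∧ (∀ j < m, x (i + j) = x (i + (n - m) + j)) ∧
      ∀ p, 0 < p → p < n - m → ¬ ∀ j < m, x (i + p + j) = x (i + j) := by
  rcases h with h | ⟨u, hne, hpre, hsuf, hcard⟩
  · rw [length_block] at h; omega
  have hle : u.length ≤ n := by
    have := hpre.length_le; rwa [length_block] at this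
  have hlt : u.length < n := by
    rcases lt_or_eq_of_le hle with h | h
    · exact h
    · exact absurd (hpre.eq_of_length (by rw [h, length_block])) hne
  set m := u.length with hm
  have hu : u = block x i m := by
    have h1 : block x i n = block x i m ++ block x (i + m) (n - m) := by
      rw [← block_add]; congr 1; omega
    have h2 : block x i m <+: block x i n := ⟨_, h1.symm⟩
    exact (List.prefix_of_prefix_length_le hpre h2 (by rw [length_block])).eq_of_length
      (by rw [length_block])
  have hsplit : block x i n = block x i (n - m) ++ block x (i + (n - m)) m := by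
    rw [← block_add]; congr 1; omega
  have hu2 : u = block x (i + (n - m)) m := by
    have h2 : block x (i + (n - m)) m <:+ block x i n := ⟨_, hsplit.symm⟩
    exact (List.suffix_of_suffix_length_le hsuf h2 (by rw [length_block])).eq_of_length
      (by rw [length_block])
  refine ⟨m, hlt, ?_, ?_⟩
  · exact (block_eq_iff x x i (i + (n - m)) m).1 (hu.symm.trans hu2)
  · intro p hp0 hpm hp
    have h0 : (0 : ℕ) ∈ {p | OccursAt u (block x i n) p} := by
      obtain ⟨t, ht⟩ := hpre
      exact ⟨[], t, rfl, by simpa using ht.symm⟩
    have h1 : n - m ∈ {p | OccursAt u (block x i n) p} := by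
      refine ⟨block x i (n - m), [], length_block _ _ _, ?_⟩
      rw [List.append_nil, hu2]
      exact hsplit
    have h2 : p ∈ {p | OccursAt u (block x i n) p} := by
      refine ⟨block x i p, block x (i + p + m) (n - p - m), length_block _ _ _, ?_⟩
      have h3 : u = block x (i + p) m := by
        rw [hu, block_eq_iff]
        intro j hj
        exact (hp j hj).symm
      rw [h3, ← block_add, add_assoc i p m, ← block_add]
      congr 1
      omega
    have h3 : ({0, p, n - m} : Set ℕ) ⊆ {p | OccursAt u (block x i n) p} := by
      intro q hq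
      simp only [Set.mem_insert_iff, Set.mem_singleton_iff] at hq
      rcases hq with rfl | rfl | rfl
      · exact h0
      · exact h2
      · exact h1
    have hfin : {p | OccursAt u (block x i n) p}.Finite := by
      apply Set.finite_of_ncard_ne_zero
      omega
    have h4 := Set.ncard_le_ncard h3 hfin
    have h5 : ({0, p, n - m} : Set ℕ).ncard = 3 := by
      rw [Set.ncard_eq_toFinset_card']
      simp only [Set.toFinset_insert, Set.toFinset_singleton]
      rw [Finset.card_insert_of_notMem, Finset.card_insert_of_notMem, Finset.card_singleton]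
      · simp; omega
      · simp; omega
    omega

end General

section Word

/-- The positions of the letter `1`: `p l` for even `l`, and `p l, p l + 1` for odd `l`. -/
def One (p : ℕ → ℕ) (c : ℕ) : Prop := ∃ l, p l ≤ c ∧ c ≤ p l + l % 2

open Classical in
/-- The binary word with `1`s exactly at the positions in `One p`. -/
noncomputable def word (p : ℕ → ℕ) (c : ℕ) : Bool := decide (One p c)

lemma word_eq_true {p : ℕ → ℕ} {c : ℕ} : word p c = true ↔ One p c := by
  simp [word]

lemma word_eq_false {p : ℕ → ℕ} {c : ℕ} : word p c = false ↔ ¬ One p c := by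
  simp [word]

variable {p : ℕ → ℕ}

lemma p_lt (hp : ∀ k, 10 * p k + 20 ≤ p (k + 1)) {a b : ℕ} (h : a < b) :
    10 * p a + 20 ≤ p b := by
  induction b with
  | zero => omega
  | succ b ih =>
    have h1 := hp b
    rcases Nat.lt_succ_iff_lt_or_eq.1 h with h2 | h2
    · have := ih h2; omega
    · subst h2; exact h1

lemma p_mono (hp : ∀ k, 10 * p k + 20 ≤ p (k + 1)) {a b : ℕ} (h : a ≤ b) : p a ≤ p b := by
  rcases Nat.lt_or_eq_of_le h with h | h
  · have := p_lt hp h; omega
  · subst h; exact le_rfl

/-- Between consecutive blocks of `1`s all letters are `0`. -/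
lemma not_one (hp : ∀ k, 10 * p k + 20 ≤ p (k + 1)) {l c : ℕ} (h1 : p l + l % 2 < c)
    (h2 : c < p (l + 1)) : ¬ One p c := by
  rintro ⟨l', h3, h4⟩
  rcases Nat.lt_or_ge l l' with h | h
  · have := p_mono hp (show l + 1 ≤ l' by omega)
    omega
  · rcases Nat.lt_or_eq_of_le h with h | h
    · have := p_lt hp h
      omega
    · subst h; omega

lemma le_p (hp : ∀ k, 10 * p k + 20 ≤ p (k + 1)) (k : ℕ) : k ≤ p k := by
  induction k with
  | zero => omega
  | succ k ih => have := hp k; omega

lemma aperiodic_word (hp : ∀ k, 10 * p k + 20 ≤ p (k + 1)) : Aperiodic (word p) := by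
  rintro ⟨N, q, hq, h⟩
  -- take a block of `1`s far to the right, followed by a gap longer than `q`
  have h1 := le_p hp (2 * (N + q))
  have h2 := hp (2 * (N + q))
  have h3 : word p (p (2 * (N + q))) = true := word_eq_true.2 ⟨2 * (N + q), le_rfl, by omega⟩
  have h4 := h (p (2 * (N + q))) (by omega)
  rw [h3] at h4
  have h5 := word_eq_true.1 h4
  exact not_one hp (l := 2 * (N + q)) (by omega) (by omega) h5

/-- The symmetric word `0^s 1 0^s` or `0^s 11 0^s` of length `n`. -/
def symWord (n : ℕ) : List Bool := (List.range n).map fun j => decide (n ≤ 2 * j + 2 ∧ 2 * j ≤ n)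

/-- If all `1`s of the window come from one block, the factor is constant or symmetric. -/
lemma single_block {i n l : ℕ} (hn : 2 ≤ n)
    (hcl : Closed (block (word p) i n)) (hl1 : i ≤ p l + l % 2) (hl2 : p l < i + n)
    (hall : ∀ c, i ≤ c → c < i + n → One p c → p l ≤ c ∧ c ≤ p l + l % 2) :
    block (word p) i n = symWord n := by
  obtain ⟨m, hmn, hper, hno⟩ := exists_border hn hcl
  -- the core of `1`s is `[a, z]`
  obtain ⟨a, ha⟩ : ∃ a, a = max i (p l) := ⟨_, rfl⟩
  obtain ⟨z, hz⟩ : ∃ z, z = min (i + n - 1) (p l + l % 2) := ⟨_, rfl⟩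
  have hone : ∀ c, i ≤ c → c < i + n → (One p c ↔ a ≤ c ∧ c ≤ z) := by
    intro c hc1 hc2
    constructor
    · intro h
      have := hall c hc1 hc2 h
      omega
    · intro h
      exact ⟨l, by omega, by omega⟩
  have haz : a ≤ z := by omega
  have haz1 : z ≤ a + 1 := by omega
  have hai : i ≤ a := by omega
  have hzi : z < i + n := by omega
  -- the two zero runs have the same length
  have hsym : a - i = i + n - 1 - z := by
    by_contra hne
    by_cases hm1 : m ≤ a - i ∧ m ≤ i + n - 1 - z
    · -- the border is `0^m`
      rcases Nat.lt_or_ge (i + n - 1 - z) (a - i) with h | h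
      · apply hno 1 (by omega) (by omega)
        intro j hj
        have e1 : word p (i + 1 + j) = false := by
          rw [word_eq_false, hone _ (by omega) (by omega)]; omega
        have e2 : word p (i + j) = false := by
          rw [word_eq_false, hone _ (by omega) (by omega)]; omega
        rw [e1, e2]
      · apply hno (n - m - 1) (by omega) (by omega)
        intro j hj
        have e1 : word p (i + (n - m - 1) + j) = false := by
          rw [word_eq_false, hone _ (by omega) (by omega)]; omega
        have e2 : word p (i + j) = false := by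
          rw [word_eq_false, hone _ (by omega) (by omega)]; omega
        rw [e1, e2]
    · -- the border contains a `1`, which forces `n = m + 1` and a constant word
      have hm2 : n = m + 1 := by
        rcases Nat.lt_or_ge (a - i) m with h | h
        · have e1 : word p (i + (a - i)) = true := by
            rw [word_eq_true, hone _ (by omega) (by omega)]; omega
          rw [hper _ h, word_eq_true, hone _ (by omega) (by omega)] at e1
          omega
        · have h' : i + n - 1 - z < m := by omega
          have e1 : word p (i + (n - m) + (z - (i + (n - m)))) = true := by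
            rw [word_eq_true, hone _ (by omega) (by omega)]; omega
          rw [← hper _ (by omega), word_eq_true, hone _ (by omega) (by omega)] at e1
          omega
      have hconst : ∀ j < m, word p (i + j) = word p (i + 1 + j) := by
        intro j hj
        have := hper j hj
        rwa [show n - m = 1 by omega] at this
      -- all letters are `1`
      have hall1 : ∀ j < n, word p (i + j) = word p (i + 0) := by
        intro j
        induction j with
        | zero => intro _; rfl
        | succ j ih =>
          intro hj
          rw [← ih (by omega), hconst j (by omega)]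
          congr 1
          omega
      have ea : word p (i + (a - i)) = true := by
        rw [word_eq_true, hone _ (by omega) (by omega)]; omega
      rw [hall1 _ (by omega)] at ea
      have e0 := ea
      rw [word_eq_true, hone _ (by omega) (by omega)] at e0
      have en : word p (i + (n - 1)) = true := by rw [hall1 _ (by omega)]; exact ea
      rw [word_eq_true, hone _ (by omega) (by omega)] at en
      omega
  unfold symWord
  rw [block_eq_map_iff]
  intro j hj
  rw [Bool.eq_iff_iff, word_eq_true, hone _ (by omega) (by omega)]
  simp only [decide_eq_true_eq]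
  omega

/-- The main estimate: if `n` lies strictly between `p k + 6 p (k-1) + 12` and `p (k+1) - p k - 3`
then there are at most three closed factors of length `n`. -/
lemma closedFactors_subset (hp : ∀ k, 10 * p k + 20 ≤ p (k + 1)) {n k : ℕ} (hn : 2 ≤ n)
    (h1 : n + p k + 3 < p (k + 1)) (h2 : k ≠ 0 → p k + 6 * p (k - 1) + 12 < n) :
    closedFactors (word p) n ⊆ {List.replicate n false, symWord n,
      block (word p) (p (k - 1) + (k - 1) % 2) n} := by
  rintro w ⟨⟨i, rfl⟩, hcl⟩
  simp only [Set.mem_insert_iff, Set.mem_singleton_iff]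
  -- gaps after the block `k` are longer than `n`
  have hgap : ∀ l, k ≤ l → n + p l + 3 < p (l + 1) := by
    intro l hl
    rcases Nat.lt_or_eq_of_le hl with h | h
    · have e1 := hp l
      have e2 := p_mono hp (show k + 1 ≤ l by omega)
      omega
    · subst h; exact h1
  by_cases hex : ∃ c, i ≤ c ∧ c < i + n ∧ One p c
  swap
  · left
    rw [List.eq_replicate_iff]
    refine ⟨length_block _ _ _, ?_⟩
    intro b hb
    unfold block at hb
    rw [List.mem_map] at hb
    obtain ⟨j, hj, rfl⟩ := hb
    rw [List.mem_range] at hj
    rw [word_eq_false]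
    intro h
    exact hex ⟨i + j, by omega, by omega, h⟩
  obtain ⟨c, hc1, hc2, l, hl1, hl2⟩ := hex
  by_cases hall : ∀ c, i ≤ c → c < i + n → One p c → p l ≤ c ∧ c ≤ p l + l % 2
  · right; left
    exact single_block hn hcl (by omega) (by omega) hall
  -- there are `1`s from two different blocks
  obtain ⟨l₁, l₂, hll, hi, hz⟩ : ∃ l₁ l₂, l₁ < l₂ ∧ i ≤ p l₁ + l₁ % 2 ∧ p l₂ < i + n := by
    push Not at hall
    obtain ⟨c', h3, h4, ⟨l', h5, h6⟩, h7⟩ := hall
    rcases Nat.lt_trichotomy l l' with h | h | h
    · exact ⟨l, l', h, by omega, by omega⟩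
    · subst h; exact absurd h6 (not_le.2 (h7 h5))
    · exact ⟨l', l, h, by omega, by omega⟩
  have hk2 : l₂ ≤ k := by
    by_contra hcon
    have e1 := hgap (l₂ - 1) (by omega)
    rw [show l₂ - 1 + 1 = l₂ by omega] at e1
    have e2 := p_mono hp (show l₁ ≤ l₂ - 1 by omega)
    omega
  have hk0 : k ≠ 0 := by omega
  have h2' := h2 hk0
  have e3 := p_mono hp (show l₁ ≤ k - 1 by omega)
  have e4 := hp (k - 1)
  rw [show k - 1 + 1 = k by omega] at e4
  -- `q` is the last `1` of block `k`; it is followed by `t` zeros in the window
  obtain ⟨q, hq⟩ : ∃ q, q = p k + k % 2 := ⟨_, rfl⟩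
  obtain ⟨t, ht⟩ : ∃ t, t = i + n - 1 - q := ⟨_, rfl⟩
  have hzero : ∀ c, q < c → c < i + n → ¬ One p c := by
    intro c hc1 hc2
    exact not_one hp (l := k) (by omega) (by omega)
  have hqone : One p q := ⟨k, by omega, by omega⟩
  obtain ⟨m, hmn, hper, hno⟩ := exists_border hn hcl
  rcases Nat.lt_or_ge t m with hmt | hmt
  · -- the border contains the `1` at position `q`
    right; right
    have f1 : word p (i + (m - 1 - t)) = true := by
      rw [hper _ (by omega), word_eq_true, show i + (n - m) + (m - 1 - t) = q by omega]
      exact hqone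
    obtain ⟨c, hc⟩ : ∃ c, c = i + (m - 1 - t) := ⟨_, rfl⟩
    rw [← hc] at f1
    have f2 : ∀ d, c < d → d ≤ c + t → ¬ One p d := by
      intro d hd1 hd2
      have e5 := hper (d - i) (by omega)
      rw [show i + (d - i) = d by omega] at e5
      rw [← word_eq_false, e5, word_eq_false]
      exact hzero _ (by omega) (by omega)
    obtain ⟨l', g1, g2⟩ := word_eq_true.1 f1
    have g3 : c = p l' + l' % 2 := by
      by_contra hcon
      exact f2 (c + 1) (by omega) (by omega) ⟨l', by omega, by omega⟩
    have g4 : l' < k := by
      rcases Nat.lt_or_ge l' k with h | h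
      · exact h
      · rcases Nat.lt_or_eq_of_le h with h | h
        · have := p_lt hp h
          omega
        · subst h; omega
    have g5 : l' = k - 1 := by
      by_contra hcon
      have e6 := p_mono hp (show l' + 1 ≤ k - 1 by omega)
      have e7 := hp l'
      exact f2 (p (l' + 1)) (by omega) (by omega) ⟨l' + 1, by omega, by omega⟩
    subst g5
    -- `c = i`, otherwise compare the letters before `c` and `q`
    have g6 : c = i := by
      by_contra hcon
      have e5 := hper (m - 2 - t) (by omega)
      rw [show i + (m - 2 - t) = c - 1 by omega, show i + (n - m) + (m - 2 - t) = q - 1 by omega]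
        at e5
      rcases Nat.mod_two_eq_zero_or_one k with hpar | hpar
      · -- block `k` is a single `1`
        have e6 : word p (c - 1) = true := word_eq_true.2 ⟨k - 1, by omega, by omega⟩
        rw [e6] at e5
        exact not_one hp (l := k - 1) (c := q - 1) (by omega)
          (by rw [show k - 1 + 1 = k by omega]; omega) (word_eq_true.1 e5.symm)
      · have e6 : word p (q - 1) = true := word_eq_true.2 ⟨k, by omega, by omega⟩
        rw [e6] at e5
        rcases Nat.lt_or_ge 0 (k - 1) with hk | hk
        · have e8 := hp (k - 1 - 1)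
          rw [show k - 1 - 1 + 1 = k - 1 by omega] at e8
          exact not_one hp (l := k - 1 - 1) (c := c - 1) (by omega)
            (by rw [show k - 1 - 1 + 1 = k - 1 by omega]; omega) (word_eq_true.1 e5)
        · obtain ⟨l'', e9, e10⟩ := word_eq_true.1 e5
          have e11 := p_mono hp (show k - 1 ≤ l'' by omega)
          omega
    rw [← g3, g6]
  · -- the border is `0^m` and is shorter than the final run of zeros
    exfalso
    have f1 : ∀ j < m, word p (i + j) = false := by
      intro j hj
      rw [hper j hj, word_eq_false]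
      exact hzero _ (by omega) (by omega)
    have f2 : m < t := by
      rcases Nat.lt_or_ge (p l₁ + l₁ % 2 - i) m with h | h
      · have e5 := f1 _ h
        rw [word_eq_false] at e5
        exact absurd ⟨l₁, by omega, by omega⟩ e5
      · omega
    apply hno (n - m - 1) (by omega) (by omega)
    intro j hj
    rw [f1 j hj, word_eq_false]
    exact hzero _ (by omega) (by omega)

end Word

section Main

/-- Since `S` is not syndetic, its complement contains arbitrarily long intervals far out. -/
lemma exists_next {S : Set ℕ} (hS : ¬ Syndetic S) (q : ℕ) :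
    ∃ P, 10 * q + 20 ≤ P ∧ ∀ n ∈ S, ¬ (P ≤ n + q + 3 ∧ n ≤ P + 6 * q + 12) := by
  unfold Syndetic at hS
  push Not at hS
  obtain ⟨a, ha⟩ := hS (20 * q + 40)
  refine ⟨a + (10 * q + 20) + q + 3, by omega, ?_⟩
  rintro n hn ⟨h1, h2⟩
  have := ha n hn (by omega)
  omega

lemma exists_seq {S : Set ℕ} (hS : ¬ Syndetic S) :
    ∃ p : ℕ → ℕ, p 0 = 0 ∧ (∀ k, 10 * p k + 20 ≤ p (k + 1)) ∧
      ∀ k, ∀ n ∈ S, ¬ (p (k + 1) ≤ n + p k + 3 ∧ n ≤ p (k + 1) + 6 * p k + 12) := by
  choose f hf1 hf2 using exists_next hS
  refine ⟨fun k => f^[k] 0, rfl, fun k => ?_, fun k => ?_⟩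
  · simp only [Function.iterate_succ_apply']
    exact hf1 _
  · simp only [Function.iterate_succ_apply']
    exact hf2 _

lemma encard_triple_le {α : Type*} (a b c : α) : ({a, b, c} : Set α).encard ≤ 3 := by
  calc ({a, b, c} : Set α).encard ≤ ({b, c} : Set α).encard + 1 := Set.encard_insert_le _ _
    _ ≤ (({c} : Set α).encard + 1) + 1 := by gcongr; exact Set.encard_insert_le _ _
    _ = 3 := by rw [Set.encard_singleton]; norm_num

/-- For every non-syndetic `S` there is an aperiodic binary word with at most three closed
factors of each length in `S`. -/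
theorem exists_word {S : Set ℕ} (hS : ¬ Syndetic S) :
    ∃ x : ℕ → Bool, Aperiodic x ∧ ∀ n ∈ S, closedComplexity x n ≤ 3 := by
  obtain ⟨p, hp0, hp, hpS⟩ := exists_seq hS
  refine ⟨word p, aperiodic_word hp, ?_⟩
  intro n hnS
  unfold closedComplexity
  rcases Nat.lt_or_ge n 2 with hn | hn
  · -- lengths `0` and `1`
    have h : closedFactors (word p) n ⊆ {[], [false], [true]} := by
      rintro w ⟨⟨i, rfl⟩, -⟩
      simp only [Set.mem_insert_iff, Set.mem_singleton_iff]
      interval_cases n
      · left; rfl
      · right
        have : block (word p) i 1 = [word p i] := by simp [block]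
        rw [this]
        cases word p i <;> simp
    exact (Set.encard_le_encard h).trans (encard_triple_le _ _ _)
  · have hex : ∃ k, n + p k + 3 < p (k + 1) := by
      refine ⟨n, ?_⟩
      have h1 := hp n
      have h2 := le_p hp n
      omega
    classical
    have hk := Nat.find_spec hex
    have hmin := fun m => @Nat.find_min _ _ hex m
    set k := Nat.find hex with hkdef
    have h2 : k ≠ 0 → p k + 6 * p (k - 1) + 12 < n := by
      intro hk0
      have h3 := hmin (k - 1) (by omega)
      have h4 := hpS (k - 1) n hnS
      rw [show k - 1 + 1 = k by omega] at h3 h4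
      omega
    exact (Set.encard_le_encard (closedFactors_subset hp hn hk h2)).trans (encard_triple_le _ _ _)

/-- A piecewise syndetic (indeed thick) set that is not syndetic. -/
lemma exists_piecewiseSyndetic : ∃ S : Set ℕ, PiecewiseSyndetic S ∧ ¬ Syndetic S := by
  refine ⟨{n | Nat.log 2 n % 2 = 0}, ⟨Set.univ, {n | Nat.log 2 n % 2 = 0}, ?_, ?_, ?_⟩, ?_⟩
  · exact ⟨1, fun a => ⟨a, Set.mem_univ _, le_rfl, by omega⟩⟩
  · intro L
    refine ⟨2 ^ (2 * L), ?_⟩
    intro j hj
    have h1 : L < 2 ^ L := Nat.lt_two_pow_self
    have h2 : 2 ^ L ≤ 2 ^ (2 * L) := Nat.pow_le_pow_right (by norm_num) (by omega)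
    have h3 : 2 ^ (2 * L + 1) = 2 * 2 ^ (2 * L) := by rw [pow_succ]; ring
    have h4 : Nat.log 2 (2 ^ (2 * L) + j) = 2 * L := by
      rw [Nat.log_eq_iff (Or.inr ⟨by norm_num, by omega⟩)]
      omega
    simp only [Set.mem_ofPred_eq, h4]
    omega
  · simp
  · rintro ⟨g, hg⟩
    obtain ⟨s, hs, h1, h2⟩ := hg (2 ^ (2 * g + 1))
    have h3 : g < 2 ^ g := Nat.lt_two_pow_self
    have h4 : 2 ^ g ≤ 2 ^ (2 * g + 1) := Nat.pow_le_pow_right (by norm_num) (by omega)
    have h5 : 2 ^ (2 * g + 1 + 1) = 2 * 2 ^ (2 * g + 1) := by rw [pow_succ]; ring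
    have h6 : Nat.log 2 s = 2 * g + 1 := by
      rw [Nat.log_eq_iff (Or.inr ⟨by norm_num, by omega⟩)]
      omega
    simp only [Set.mem_ofPred_eq, h6] at hs
    omega

/-- **Answer to Q1 (negative) in sharp form.**  There are an aperiodic binary word `x` and a
piecewise syndetic set `S` with `cl_x(n) ≤ 3` for all `n ∈ S`; more precisely, such a word exists
for every set `S` that is not syndetic. -/
theorem result :
    (∃ (x : ℕ → Bool) (S : Set ℕ), Aperiodic x ∧ PiecewiseSyndetic S ∧
      ∀ n ∈ S, closedComplexity x n ≤ 3) ∧
    (∀ S : Set ℕ, ¬ Syndetic S →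
      ∃ x : ℕ → Bool, Aperiodic x ∧ ∀ n ∈ S, closedComplexity x n ≤ 3) := by
  refine ⟨?_, fun S hS => exists_word hS⟩
  obtain ⟨S, hS1, hS2⟩ := exists_piecewiseSyndetic
  obtain ⟨x, hx1, hx2⟩ := exists_word hS2
  exact ⟨x, S, hx1, hS1, hx2⟩

end Main

end Pool.Agent.Results.MP_304c86_co.NonSyndetic
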